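import Pool.Agent.Helper98_Pak.Lib
import Pool.Agent.Helper91_Pack.LayGen

/-!
# T8: the words of the floor
-/

set_option linter.unusedSimpArgs false

namespace Pool.Agent.Helper2_Pak.H98

open Pool.Agent.Helper2_Pack Pool.Agent.Helper53_CookLevin Pool.Agent.Helper53_Chan
open Pool.Agent.Helper91_Pack (NG FG SG)
open Pool.Agent.Helper91_Pack

/-- positive digits of the height of the floor -/
def fP (w : Bool) (l S1 S2 : ℕ) : ℕ → ℕ :=
  if w then v8 0 (256 * l) 0 0 0 (256 * S1 + 128 * l) (256 * S2) 0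
  else v8 0 (256 * l) 0 0 0 0 0 0

/-- negative digits of the height of the floor -/
def fQ (w : Bool) (N l S1 S2 : ℕ) : ℕ → ℕ :=
  if w then v8 0 (256 * N) 0 (256 * l) 0 0 0 0
  else v8 0 (256 * N) 0 (256 * l) 0 (256 * S1 + 128 * l) (256 * S2) 0

/-- the first corner -/
def dsF0 : List Dq := [⟨0, zz, zz, 0, zz, zz⟩]

/-- the other corners -/
def dsF (w : Bool) : List Dq :=
  [⟨0, i1 64, zz, 0, zz, zz⟩] ++
    (if w then [⟨60, zz, zz, 0, zz, zz⟩, ⟨64, zz, zz, 0, zz, i3 512⟩, ⟨68, zz, zz, 0, zz, zz⟩,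
        ⟨188, zz, zz, 0, zz, zz⟩, ⟨192, zz, zz, 0, zz, i3 512⟩, ⟨196, zz, zz, 0, zz, zz⟩]
      else [⟨64, zz, i3 256, 0, zz, zz⟩, ⟨64, zz, zz, 0, i3 256, zz⟩, ⟨64, i3 256, zz, 0, zz, zz⟩,
        ⟨192, zz, i3 256, 0, zz, zz⟩, ⟨192, zz, zz, 0, i3 256, zz⟩,
        ⟨192, i3 256, zz, 0, zz, zz⟩]) ++
    [⟨256, zz, i1 64, 0, zz, zz⟩]

theorem dsF0_ok : ∀ d ∈ dsF0, d.OK := by
  have z1 : ∀ j, zz j ≤ 2048 := fun j => zz_le j
  intro d hd
  simp only [dsF0, List.mem_cons, List.not_mem_nil, or_false] at hd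
  subst hd
  exact ⟨fun j => ⟨z1 j, z1 j, z1 j, z1 j⟩, by simp [zz, v8], by simp [zz, v8], by simp [zz, v8],
    by simp [zz, v8]⟩

theorem dsF_ok (w : Bool) : ∀ d ∈ dsF w, d.OK := by
  have z1 : ∀ j, zz j ≤ 2048 := fun j => zz_le j
  have z2 : ∀ j, i1 64 j ≤ 2048 := i1_le (by norm_num)
  have z3 : ∀ j, i3 256 j ≤ 2048 := i3_le (by norm_num)
  have z4 : ∀ j, i3 512 j ≤ 2048 := i3_le (by norm_num)
  intro d hd
  unfold dsF at hd
  split_ifs at hd <;>
    simp only [List.mem_append, List.mem_cons, List.not_mem_nil, or_false] at hd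
  all_goals
    rcases hd with (rfl | rfl | rfl | rfl | rfl | rfl | rfl) | rfl <;>
      exact ⟨fun j => ⟨by simp only [z1, z2, z3], by simp only [z1, z2, z3],
        by simp only [z1, z3], by simp only [z1, z4]⟩,
        by simp [i1, i3, zz, v8], by simp [i1, i3, zz, v8], by simp [i1, i3, zz, v8],
        by simp [i1, i3, zz, v8]⟩

theorem F_val (t : ℚ) (w : Bool) (N l S1 S2 : ℕ) :
    val8 t (fP w l S1 S2) (fQ w N l S1 S2) = -((N : ℚ) - l) * t ^ 2 - l * t ^ 4 -
      (if w then (-1 : ℤ) else 1 : ℤ) * (((S1 : ℚ) + l / 2) * t ^ 6 + S2 * t ^ 7) := by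
  cases w <;> simp only [val8, fP, fQ, v8] <;> simp only [if_true, Bool.false_eq_true, if_false,
    v8] <;> push_cast <;> ring

theorem dsF0_val (t : ℚ) (c : ℕ) :
    dsF0.map (Dq.pt t c (0 : ℕ) 0) = [((c : ℚ), 0)] := by
  have x3 : val8 t zz zz = 0 := by simp only [val8, zz, v8]; push_cast; ring
  simp only [dsF0, List.map_cons, List.map_nil, Dq.pt, x3, List.cons.injEq, Prod.mk.injEq, and_true]
  push_cast
  repeat' apply And.intro
  all_goals ring1

theorem dsF_val (t F : ℚ) (w : Bool) (c : ℕ) :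
    (dsF w).map (Dq.pt t c (0 : ℕ) F) =
    [((c : ℚ) + t / 4, F)] ++
      (if w then tentPts (c + 1 / 4) F (1 / 64) (-(2 * t ^ 3)) ++
        tentPts (c + 3 / 4) F (1 / 64) (-(2 * t ^ 3))
      else tentPts (c + 1 / 4) F (t ^ 3) (t ^ 3) ++
        tentPts (c + 3 / 4) F (t ^ 3) (t ^ 3)) ++
      [((c : ℚ) + 1 - t / 4, F)] := by
  have x1 : val8 t (i1 64) zz = t / 4 := by simp only [val8, i1, zz, v8]; push_cast; ring
  have x2 : val8 t zz (i1 64) = - (t / 4) := by simp only [val8, i1, zz, v8]; push_cast; ring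
  have x3 : val8 t zz zz = 0 := by simp only [val8, zz, v8]; push_cast; ring
  have x4 : val8 t (i3 256) zz = t ^ 3 := by simp only [val8, i3, zz, v8]; push_cast; ring
  have x5 : val8 t zz (i3 256) = - t ^ 3 := by simp only [val8, i3, zz, v8]; push_cast; ring
  have x6 : val8 t zz (i3 512) = - (2 * t ^ 3) := by simp only [val8, i3, zz, v8]; push_cast; ring
  unfold dsF tentPts
  split_ifs
  all_goals
    simp only [List.map_append, List.map_cons, List.map_nil, List.cons_append, List.nil_append,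
      Dq.pt, x1, x2, x3, x4, x5, x6, List.cons.injEq, Prod.mk.injEq, and_true]
    push_cast
    repeat' apply And.intro
  all_goals ring1

/-- the digits of the corners of the floor of a column -/
def DF (G : Lay) (c : ℕ) : List DP :=
  dsF0.map (pnt G.T c 0 zz zz) ++
    (dsF (G.kd c).isW).map (pnt G.T c 0 (fP (G.kd c).isW (G.l c) (G.S1 c) (G.S2 c))
      (fQ (G.kd c).isW G.N (G.l c) (G.S1 c) (G.S2 c)))

theorem S1_le (G : Lay) (c : ℕ) (hc : c ≤ G.M) : G.S1 c ≤ G.N * G.M := by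
  unfold Lay.S1
  calc _ ≤ ∑ r ∈ (Finset.range G.N).filter (fun r => G.spc c r = true), G.M :=
        Finset.sum_le_sum fun r _ => (H69.dr1_le G r c).trans hc
    _ = ((Finset.range G.N).filter (fun r => G.spc c r = true)).card * G.M := by simp
    _ ≤ G.N * G.M := by
        refine Nat.mul_le_mul_right _ ((Finset.card_filter_le _ _).trans ?_)
        simp

theorem S2_le (G : Lay) (c : ℕ) (hc : c ≤ G.M) : G.S2 c ≤ G.N * G.M := by
  unfold Lay.S2
  calc _ ≤ ∑ r ∈ (Finset.range G.N).filter (fun r => G.spc c r = true), G.M :=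
        Finset.sum_le_sum fun r _ => (H69.dr2_le' G r c).trans hc
    _ = ((Finset.range G.N).filter (fun r => G.spc c r = true)).card * G.M := by simp
    _ ≤ G.N * G.M := by
        refine Nat.mul_le_mul_right _ ((Finset.card_filter_le _ _).trans ?_)
        simp

theorem T_big (G : Lay) (c : ℕ) (hc : c ≤ G.M) (hl : G.l c ≤ G.n) :
    256 * G.S1 c + 128 * G.l c + 2048 ≤ 256 * G.T ∧ 256 * G.S2 c + 2048 ≤ 256 * G.T ∧
      256 * G.N + 2048 ≤ 256 * G.T ∧ 256 * G.l c + 2048 ≤ 256 * G.T := by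
  have h1 := S1_le G c hc
  have h2 := S2_le G c hc
  have hN : G.N = 2 * G.n + 1 := rfl
  have hT : G.T = 4 * (G.M + 1) * (G.n + 1) + 8 := rfl
  have e1 : G.N * G.M = 2 * (G.n * G.M) + G.M := by rw [hN]; ring
  have e2 : 4 * (G.M + 1) * (G.n + 1) = 4 * (G.n * G.M) + 4 * G.M + 4 * G.n + 4 := by ring
  rw [e1] at h1 h2
  rw [hT, e2, hN]
  generalize G.n * G.M = x at *
  omega

theorem fP_le (G : Lay) (c : ℕ) (hc : c ≤ G.M) (hl : G.l c ≤ G.n) (w : Bool) (j : ℕ) :
    fP w (G.l c) (G.S1 c) (G.S2 c) j ≤ 256 * G.T := by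
  have h := T_big G c hc hl
  unfold fP
  split_ifs <;> apply v8_le <;> omega

theorem fQ_le (G : Lay) (c : ℕ) (hc : c ≤ G.M) (hl : G.l c ≤ G.n) (w : Bool) (j : ℕ) :
    fQ w G.N (G.l c) (G.S1 c) (G.S2 c) j + 2048 ≤ 256 * G.T := by
  have h := T_big G c hc hl
  have : fQ w G.N (G.l c) (G.S1 c) (G.S2 c) j ≤ 256 * G.T - 2048 := by
    unfold fQ
    split_ifs <;> apply v8_le <;> omega
  omega

theorem T8_ge (G : Lay) : 8 ≤ G.T := by
  have := H69.T_ge G; omega

theorem DF_ok (G : Lay) (m c : ℕ) (hc : c ≤ G.M) (hl : G.l c ≤ G.n) (hT : 2 ^ 11 * G.T < 2 ^ m) :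
    OKs m (DF G c) := by
  have hT8 := T8_ge G
  unfold DF
  refine H69.OKs_append _ _ _ ?_ ?_
  · refine pnt_ok m _ _ _ _ _ _ hT hT8 (fun j => zz_le j) (fun j => ?_) (by simp [zz, v8])
      (by simp [zz, v8]) dsF0_ok
    have := zz_le (N := 0) j
    omega
  · refine pnt_ok m _ _ _ _ _ _ hT hT8 (fP_le G c hc hl _) (fQ_le G c hc hl _) ?_ ?_ (dsF_ok _)
    · unfold fP; split_ifs <;> simp [v8]
    · unfold fQ; split_ifs <;> simp [v8]

theorem DF_val (h6 : T6Stmt) (S : SInst) (m c : ℕ) (hS : S.WF) (hc : c < (lay S).M) :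
    translate (shift (lay S).T ((1 / 2) ^ m)) ((lay S).flPts ((1 / 2) ^ m) c) =
      dPoly m (DF (lay S) c) := by
  have hl := l_le S hS c
  have hT8 := T8_ge (lay S)
  have hfl := (h6 S ((1 / 2) ^ m) c hS hc).1
  unfold DF
  have e2 : ∀ L L' : List DP, dPoly m (L ++ L') = dPoly m L ++ dPoly m L' := by
    intro L L'
    unfold dPoly
    rw [List.map_append]
  have e1 : ∀ L L' : Polygon, translate (shift (lay S).T ((1 / 2) ^ m)) (L ++ L') =
      translate (shift (lay S).T ((1 / 2) ^ m)) L ++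
        translate (shift (lay S).T ((1 / 2) ^ m)) L' := by
    intro L L'
    unfold translate
    rw [List.map_append]
  rw [e2, pnt_val m _ _ _ _ _ _ hT8 (fun j => by have := zz_le (N := 0) j; omega) dsF0_ok,
    pnt_val m _ _ _ _ _ _ hT8 (fQ_le (lay S) c hc.le hl _) (dsF_ok _), ← e1, F_val]
  have hz : val8 ((1 / 2) ^ m) zz zz = 0 := by
    simp only [val8, zz, v8]; push_cast; ring
  have hfl' : (lay S).fl ((1 / 2) ^ m) c = -(((lay S).N : ℚ) - (lay S).l c) * ((1 / 2) ^ m) ^ 2 -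
      (lay S).l c * ((1 / 2) ^ m) ^ 4 -
      (if ((lay S).kd c).isW then (-1 : ℤ) else 1 : ℤ) * ((((lay S).S1 c : ℚ) +
        (lay S).l c / 2) * ((1 / 2) ^ m) ^ 6 + (lay S).S2 c * ((1 / 2) ^ m) ^ 7) := hfl
  rw [hz, ← hfl', dsF0_val, dsF_val]
  rfl

/-- Module T8. -/
theorem t8 (h4 : T4Stmt) (h5 : T5Stmt) (h6 : T6Stmt) (hL : TLStmt) : T8Stmt := by
  refine ⟨fun S => (List.range (lay S).M).flatMap (fun c => DF (lay S) (min c (lay S).M)), ?_, ?_⟩
  · intro S m hS _ hT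
    refine ⟨?_, ?_⟩
    · refine H69.OKs_flatMap _ _ _ fun c hc => ?_
      exact DF_ok _ _ _ (min_le_right _ _) (l_le S hS _) hT
    · rw [H69.translate_flatMap, H69.dPoly_flatMap]
      refine List.flatMap_congr fun c hc => ?_
      have hc' := List.mem_range.1 hc
      rw [min_eq_left hc'.le]
      exact DF_val h6 S m c hS hc'
  · have hm : NG 1 (fun ρ : Fin 1 → List CL => mOf1 (ρ 0).length) := by
      have hl : NG 1 (fun ρ : Fin 1 → List CL => (ρ 0).length) := NG.len0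
      unfold mOf1
      refine NG.add (NG.add (NG.mul (NG.mul (NG.const 32) (NG.mul (NG.const 7)
        (NG.add (NG.mul (NG.const 4) hl) (NG.const 3)))) (NG.add (NG.mul (NG.const 4) hl)
        (NG.const 16))) (NG.mul (NG.const 512) ?_)) (NG.const 512)
      exact NG.congr (NG.mul (NG.add hl (NG.const 8)) (NG.add hl (NG.const 8)))
        (fun ρ => by ring)
    have hv : SG 1 (fun ρ : Fin 1 → List CL => (ρ 0).filterMap Sum.getLeft?) := sg_first
    have hM := H69.ng_M1 h4 hv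
    have hv' := SG.up hv
    have hm' : NG 2 (fun ρ : Fin 2 → List CL => mOf1 ((ρ ∘ Fin.succ) 0).length) := NG.up hm
    have hlen : NG 2 (fun ρ : Fin 2 → List CL => (ρ 0).length) := NG.len0
    have hM' := H69.ng_M1 h4 hv'
    have hc : NG 2 (fun ρ : Fin 2 → List CL => min (ρ 0).length (lay (sysA (ρ ∘ Fin.succ))).M) :=
      NG.congr (NG.sub hlen (NG.sub hlen hM')) (fun ρ => by
        show _ - (_ - (lay (sysA (ρ ∘ Fin.succ))).M) = _
        omega)
    have hT' := H69.ng_T1 h4 hv'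
    have hN' := H69.ng_N1 h4 hv'
    have hl' := (h4 2 _ _ hv' hc).2.2.2
    have hk' := (h4 2 _ _ hv' hc).2.2.1
    obtain ⟨-, -, d3, d4⟩ := h5 2 _ _ (fun _ => 0) hv' hc (NG.const 0) (fun ρ => min_le_right _ _)
    refine ((hL 1 _ hm).2.2.1 (fun ρ => (lay (sysA ρ)).M)
      (fun c ρ => DF (lay (sysA ρ)) (min c (lay (sysA ρ)).M)) hM ?_).1
    refine (hL 2 _ hm').2.1 _ _ ?_ ?_
    · exact wg_pnt hL (P := fun _ => zz) (Q := fun _ => zz) hm' hT' hc (NG.const 0)
        (fun j => NG.const _) (fun j => NG.const _) dsF0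
    · refine (hL 2 _ hm').2.2.2.1 Bool (fun ρ => ((lay (sysA (ρ ∘ Fin.succ))).kd
          (min (ρ 0).length (lay (sysA (ρ ∘ Fin.succ))).M)).isW)
        (fun w ρ => (dsF w).map (pnt (lay (sysA (ρ ∘ Fin.succ))).T
          (min (ρ 0).length (lay (sysA (ρ ∘ Fin.succ))).M) 0
          (fP w ((lay (sysA (ρ ∘ Fin.succ))).l (min (ρ 0).length (lay (sysA (ρ ∘ Fin.succ))).M))
            ((lay (sysA (ρ ∘ Fin.succ))).S1 (min (ρ 0).length (lay (sysA (ρ ∘ Fin.succ))).M))
            ((lay (sysA (ρ ∘ Fin.succ))).S2 (min (ρ 0).length (lay (sysA (ρ ∘ Fin.succ))).M)))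
          (fQ w (lay (sysA (ρ ∘ Fin.succ))).N
            ((lay (sysA (ρ ∘ Fin.succ))).l (min (ρ 0).length (lay (sysA (ρ ∘ Fin.succ))).M))
            ((lay (sysA (ρ ∘ Fin.succ))).S1 (min (ρ 0).length (lay (sysA (ρ ∘ Fin.succ))).M))
            ((lay (sysA (ρ ∘ Fin.succ))).S2 (min (ρ 0).length (lay (sysA (ρ ∘ Fin.succ))).M)))))
        (FG.map Kind.isW hk') (fun w => ?_)
      refine wg_pnt hL hm' hT' hc (NG.const 0) (fun j => ?_) (fun j => ?_) (dsF w)
      · cases w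
        · exact v8_ng (NG.const 0) (NG.mul (NG.const 256) hl') (NG.const 0) (NG.const 0)
            (NG.const 0) (NG.const 0) (NG.const 0) (NG.const 0) j
        · exact v8_ng (NG.const 0) (NG.mul (NG.const 256) hl') (NG.const 0) (NG.const 0)
            (NG.const 0) (NG.add (NG.mul (NG.const 256) d3) (NG.mul (NG.const 128) hl'))
            (NG.mul (NG.const 256) d4) (NG.const 0) j
      · cases w
        · exact v8_ng (NG.const 0) (NG.mul (NG.const 256) hN') (NG.const 0)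
            (NG.mul (NG.const 256) hl')
            (NG.const 0) (NG.add (NG.mul (NG.const 256) d3) (NG.mul (NG.const 128) hl'))
            (NG.mul (NG.const 256) d4) (NG.const 0) j
        · exact v8_ng (NG.const 0) (NG.mul (NG.const 256) hN') (NG.const 0)
            (NG.mul (NG.const 256) hl') (NG.const 0) (NG.const 0) (NG.const 0) (NG.const 0) j

end Pool.Agent.Helper2_Pak.H98
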