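import Pool.Agent.Helper98_Pak.Lib

/-!
# T9c: the words of the ceilings
-/

set_option linter.unusedSimpArgs false

namespace Pool.Agent.Helper2_Pak.H98

open Pool.Agent.Helper2_Pack Pool.Agent.Helper53_CookLevin Pool.Agent.Helper53_Chan
open Pool.Agent.Helper91_Pack (NG FG SG)
open Pool.Agent.Helper91_Pack

/-- integral part of the ceiling -/
def cb : Kind → ℕ
  | .bV => 1280 | .bW => 1280 | .U => 1280 | .Uv => 1280 | .V1 => 256 | .V2 => 768 | .V3 _ => 1280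
  | .W1 => 256 | .W2 => 768 | .W3 _ => 1280 | _ => 0

/-- positive digits of the ceiling -/
def cP : Kind → ℕ → ℕ
  | .bV => v8 0 1280 0 0 0 0 0 0
  | .bW => v8 0 1280 0 0 0 0 0 0
  | .U => v8 0 512 0 768 0 0 0 0
  | .Uv => v8 0 512 0 768 0 1152 1536 0
  | .V1 => v8 0 0 0 256 0 384 512 0
  | .V2 => v8 0 512 0 256 0 384 512 0
  | .V3 o => v8 0 1024 0 256 0 384 512 (256 * o.toNat)
  | .W1 => v8 0 0 0 256 0 0 0 0
  | .W2 => v8 0 512 0 256 0 0 0 0
  | .W3 o => v8 0 1024 0 256 0 0 0 (256 * o.toNat)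
  | .pL _ => v8 0 0 0 256 0 0 0 0
  | .pR _ => v8 0 0 0 256 0 0 0 0
  | _ => zz

/-- negative digits of the ceiling -/
def cQ : Kind → ℕ → ℕ
  | .U => v8 0 0 0 0 0 384 0 0
  | .V3 o => v8 0 0 0 0 0 0 0 (256 * (-o).toNat)
  | .W1 => v8 0 0 0 0 0 128 0 0
  | .W2 => v8 0 0 0 0 0 128 0 0
  | .W3 o => v8 0 0 0 0 0 128 0 (256 * (-o).toNat)
  | _ => zz

/-- value of the ceiling -/
def ceV (t : ℚ) (a : Kind) : ℚ := match a with
    | .bV => 5 + 5 * t ^ 2
    | .bW => 5 + 5 * t ^ 2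
    | .U => 5 + 2 * t ^ 2 + 3 * t ^ 4 - 3 / 2 * t ^ 6
    | .Uv => 5 + 2 * t ^ 2 + 3 * t ^ 4 + 9 / 2 * t ^ 6 + 6 * t ^ 7
    | .V1 => 1 + t ^ 4 + 3 / 2 * t ^ 6 + 2 * t ^ 7
    | .V2 => 3 + 2 * t ^ 2 + t ^ 4 + 3 / 2 * t ^ 6 + 2 * t ^ 7
    | .V3 o => 5 + 4 * t ^ 2 + t ^ 4 + 3 / 2 * t ^ 6 + 2 * t ^ 7 + o * t ^ 8
    | .W1 => 1 + t ^ 4 - 1 / 2 * t ^ 6
    | .W2 => 3 + 2 * t ^ 2 + t ^ 4 - 1 / 2 * t ^ 6
    | .W3 o => 5 + 4 * t ^ 2 + t ^ 4 - 1 / 2 * t ^ 6 + o * t ^ 8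
    | .pL _ => t ^ 4
    | .pR _ => t ^ 4
    | _ => 0

theorem toNat_q (o : ℤ) : ((o.toNat : ℕ) : ℚ) - (((-o).toNat : ℕ) : ℚ) = (o : ℚ) := by
  have h := Int.toNat_sub_toNat_neg o
  have h2 : (((o.toNat : ℤ) - ((-o).toNat : ℤ) : ℤ) : ℚ) = (o : ℚ) := by rw [h]
  push_cast at h2
  exact h2

theorem ceV_eq (t : ℚ) (a : Kind) : (cb a : ℚ) / 256 + val8 t (cP a) (cQ a) = ceV t a := by
  cases a <;> simp only [cb, cP, cQ, ceV, val8, v8, zz] <;> push_cast <;>
    first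
    | ring1
    | (rename_i o; rw [← toNat_q o]; ring1)

theorem add_i3 (t : ℚ) (P Q : ℕ → ℕ) (a : ℕ) :
    val8 t (fun j => P j + i3 a j) Q = val8 t P Q + a / 256 * t ^ 3 := by
  simp only [val8, i3, v8]
  push_cast
  ring

theorem add_i3' (t : ℚ) (P Q : ℕ → ℕ) (a : ℕ) :
    val8 t P (fun j => Q j + i3 a j) = val8 t P Q - a / 256 * t ^ 3 := by
  simp only [val8, i3, v8]
  push_cast
  ring

/-- the corners of the ceiling which is not over a lever -/
def ds0 (a : Kind) : List Dq :=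
  [⟨0, i1 64, zz, cb a, cP a, cQ a⟩] ++
    (if a.isW then [⟨64, zz, i3 256, cb a, cP a, cQ a⟩,
        ⟨64, zz, zz, cb a, cP a, fun j => cQ a j + i3 256 j⟩, ⟨64, i3 256, zz, cb a, cP a, cQ a⟩,
        ⟨192, zz, i3 256, cb a, cP a, cQ a⟩,
        ⟨192, zz, zz, cb a, cP a, fun j => cQ a j + i3 256 j⟩, ⟨192, i3 256, zz, cb a, cP a, cQ a⟩]
      else if a.sp a.h then []
      else [⟨60, zz, zz, cb a, cP a, cQ a⟩,
        ⟨64, zz, zz, cb a, fun j => cP a j + i3 512 j, cQ a⟩, ⟨68, zz, zz, cb a, cP a, cQ a⟩,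
        ⟨188, zz, zz, cb a, cP a, cQ a⟩,
        ⟨192, zz, zz, cb a, fun j => cP a j + i3 512 j, cQ a⟩, ⟨196, zz, zz, cb a, cP a, cQ a⟩]) ++
    [⟨256, zz, i1 64, cb a, cP a, cQ a⟩, ⟨256, zz, zz, 256 * a.h, zz, zz⟩]

/-- the units of `eQ` -/
def eN (σ : Bool) : ℕ := if σ then 144 else 112

/-- the units of `tipQ` -/
def tN (σ : Bool) : ℕ := if σ then 192 else 320

/-- the fourth digit -/
def i4 (a : ℕ) : ℕ → ℕ := v8 0 0 0 a 0 0 0 0
/-- two digits -/
def i34 (a b : ℕ) : ℕ → ℕ := v8 0 0 a b 0 0 0 0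

/-- the corners of the ceiling -/
def dsC : Kind → List Dq
  | .pL σ => [⟨0, i1 64, zz, 0, i4 256, zz⟩, ⟨60, zz, zz, 0, i4 256, zz⟩,
      ⟨64, zz, zz, 0, i34 512 256, zz⟩, ⟨68, zz, zz, 0, i4 256, zz⟩,
      ⟨eN σ, zz, i1 64, 0, i4 256, zz⟩, ⟨eN σ, zz, i1 64, 256, i1 64, zz⟩,
      ⟨256, zz, i7 256, 256, i1 64, zz⟩, ⟨256, zz, zz, 0, i3 (tN σ), zz⟩]
  | .pR σ => [⟨0, i7 256, zz, 256, i1 64, zz⟩, ⟨eN σ, i1 64, zz, 256, i1 64, zz⟩,
      ⟨eN σ, i1 64, zz, 0, i4 256, zz⟩, ⟨188, zz, zz, 0, i4 256, zz⟩,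
      ⟨192, zz, zz, 0, i34 512 256, zz⟩, ⟨196, zz, zz, 0, i4 256, zz⟩,
      ⟨256, zz, i1 64, 0, i4 256, zz⟩, ⟨256, zz, zz, 0, zz, zz⟩]
  | a => ds0 a

theorem cP_le (a : Kind) (ho : -1 ≤ a.off ∧ a.off ≤ 1) (j : ℕ) : cP a j ≤ 1536 := by
  cases a <;> simp only [cP, zz, Kind.off] at * <;> apply v8_le <;> omega

theorem cQ_le (a : Kind) (ho : -1 ≤ a.off ∧ a.off ≤ 1) (j : ℕ) : cQ a j ≤ 1536 := by
  cases a <;> simp only [cQ, zz, Kind.off] at * <;> apply v8_le <;> omega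

theorem cP_8 (a : Kind) : cP a 8 % 2 = 0 := by
  cases a <;> simp only [cP, zz, v8] <;> omega

theorem cQ_8 (a : Kind) : cQ a 8 % 2 = 0 := by
  cases a <;> simp only [cQ, zz, v8] <;> omega

theorem v8_ok {a1 a2 a3 a4 a5 a6 a7 a8 : ℕ} (h : a1 ≤ 2048 ∧ a2 ≤ 2048 ∧ a3 ≤ 2048 ∧ a4 ≤ 2048 ∧
    a5 ≤ 2048 ∧ a6 ≤ 2048 ∧ a7 ≤ 2048 ∧ a8 ≤ 2048) (j : ℕ) :
    v8 a1 a2 a3 a4 a5 a6 a7 a8 j ≤ 2048 := by
  apply v8_le <;> omega

theorem ds0_ok (a : Kind) (ho : -1 ≤ a.off ∧ a.off ≤ 1) : ∀ d ∈ ds0 a, d.OK := by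
  have hP : ∀ j, cP a j ≤ 2048 := fun j => (cP_le a ho j).trans (by norm_num)
  have hQ : ∀ j, cQ a j ≤ 2048 := fun j => (cQ_le a ho j).trans (by norm_num)
  have hP3 : ∀ j, cP a j + i3 512 j ≤ 2048 := fun j => by
    have h1 := cP_le a ho j
    have h2 : i3 512 j ≤ 512 := by apply v8_le <;> omega
    omega
  have hQ3 : ∀ j, cQ a j + i3 256 j ≤ 2048 := fun j => by
    have h1 := cQ_le a ho j
    have h2 : i3 256 j ≤ 256 := by apply v8_le <;> omega
    omega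
  have h8 := cP_8 a
  have h9 := cQ_8 a
  have z1 : ∀ j, zz j ≤ 2048 := fun j => zz_le j
  have z2 : ∀ j, i1 64 j ≤ 2048 := i1_le (by norm_num)
  have z3 : ∀ j, i3 256 j ≤ 2048 := i3_le (by norm_num)
  intro d hd
  unfold ds0 at hd
  split_ifs at hd <;>
    simp only [List.mem_append, List.mem_cons, List.not_mem_nil, or_false] at hd
  · rcases hd with (rfl | rfl | rfl | rfl | rfl | rfl | rfl) | rfl | rfl <;>
      exact ⟨fun j => ⟨by simp only [z1, z2, z3], by simp only [z1, z2, z3],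
        by simp only [z1, hP], by simp only [z1, hQ, hQ3]⟩,
        by simp [i1, i3, zz, v8], by simp [i1, i3, zz, v8], by simp [i1, i3, zz, v8, h8],
        by simp [i1, i3, zz, v8, h9]⟩
  · rcases hd with rfl | rfl | rfl <;>
      exact ⟨fun j => ⟨by simp only [z1, z2, z3], by simp only [z1, z2, z3],
        by simp only [z1, hP], by simp only [z1, hQ, hQ3]⟩,
        by simp [i1, i3, zz, v8], by simp [i1, i3, zz, v8], by simp [i1, i3, zz, v8, h8],
        by simp [i1, i3, zz, v8, h9]⟩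
  · rcases hd with (rfl | rfl | rfl | rfl | rfl | rfl | rfl) | rfl | rfl <;>
      exact ⟨fun j => ⟨by simp only [z1, z2, z3], by simp only [z1, z2, z3],
        by simp only [z1, hP, hP3], by simp only [z1, hQ, hQ3]⟩,
        by simp [i1, i3, zz, v8], by simp [i1, i3, zz, v8], by simp [i1, i3, zz, v8, h8],
        by simp [i1, i3, zz, v8, h9]⟩

theorem dsC_ok (a : Kind) (ho : -1 ≤ a.off ∧ a.off ≤ 1) : ∀ d ∈ dsC a, d.OK := by
  have z1 : ∀ j, zz j ≤ 2048 := fun j => zz_le j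
  have z2 : ∀ j, i1 64 j ≤ 2048 := i1_le (by norm_num)
  have z3 : ∀ j, i4 256 j ≤ 2048 := v8_ok (by norm_num)
  have z4 : ∀ j, i34 512 256 j ≤ 2048 := v8_ok (by norm_num)
  have z5 : ∀ j, i7 256 j ≤ 2048 := v8_ok (by norm_num)
  have z6 : ∀ σ j, i3 (tN σ) j ≤ 2048 := fun σ => v8_ok (by cases σ <;> simp [tN])
  cases a with
  | pL σ =>
    intro d hd
    simp only [dsC, List.mem_cons, List.not_mem_nil, or_false] at hd
    rcases hd with rfl | rfl | rfl | rfl | rfl | rfl | rfl | rfl <;>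
      exact ⟨fun j => ⟨by simp only [z1, z2, z3, z5], by simp only [z1, z2, z3, z5],
        by simp only [z1, z2, z3, z4, z6], by simp only [z1]⟩,
        by simp [i1, i3, i7, zz, v8], by simp [i1, i3, i7, zz, v8],
        by simp [i1, i3, i4, i34, zz, v8], by simp [zz, v8]⟩
  | pR σ =>
    intro d hd
    simp only [dsC, List.mem_cons, List.not_mem_nil, or_false] at hd
    rcases hd with rfl | rfl | rfl | rfl | rfl | rfl | rfl | rfl <;>
      exact ⟨fun j => ⟨by simp only [z1, z2, z3, z5], by simp only [z1, z2, z3, z5],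
        by simp only [z1, z2, z3, z4, z6], by simp only [z1]⟩,
        by simp [i1, i3, i7, zz, v8], by simp [i1, i3, i7, zz, v8],
        by simp [i1, i3, i4, i34, zz, v8], by simp [zz, v8]⟩
  | _ => exact ds0_ok _ ho

theorem spc_top (G : Lay) (c : ℕ) : G.spc c (G.top c - 1) = (G.kd c).sp (G.kd c).h := by
  have hN : G.N = 2 * G.n + 1 := rfl
  unfold Lay.spc Lay.top
  by_cases h : (G.kd c).h = 0
  · rw [h, if_pos (by omega)]
    have h1 : (G.N + 0 - 1) % 2 = 0 := by omega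
    have h2 : (G.kd c).sp 0 = false := by
      cases G.kd c <;> simp [Kind.sp]
    rw [h1, h2]
    simp
  · rw [if_neg (by omega)]
    congr 1
    omega

theorem ds0_val (t : ℚ) (c : ℕ) (G : Lay) (hce : G.ce t c = G.N + ceV t (G.kd c)) :
    (ds0 (G.kd c)).map (Dq.pt t c G.N 0) =
    [((c : ℚ) + t / 4, G.ce t c)] ++
      (if (G.kd c).isW then tentPts (c + 1 / 4) (G.ce t c) (t ^ 3) (-t ^ 3) ++
          tentPts (c + 3 / 4) (G.ce t c) (t ^ 3) (-t ^ 3)
        else if G.spc c (G.top c - 1) then []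
        else tentPts (c + 1 / 4) (G.ce t c) (1 / 64) (2 * t ^ 3) ++
          tentPts (c + 3 / 4) (G.ce t c) (1 / 64) (2 * t ^ 3)) ++
      [((c : ℚ) + 1 - t / 4, G.ce t c), ((c : ℚ) + 1, (G.top c : ℚ))] := by
  rw [spc_top, hce, ← ceV_eq]
  have htop : (G.top c : ℚ) = G.N + (G.kd c).h := by
    unfold Lay.top; push_cast; ring
  rw [htop]
  unfold ds0 tentPts
  generalize G.kd c = a
  have x1 : val8 t (i1 64) zz = t / 4 := by simp only [val8, i1, zz, v8]; push_cast; ring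
  have x2 : val8 t zz (i1 64) = - (t / 4) := by simp only [val8, i1, zz, v8]; push_cast; ring
  have x3 : val8 t zz zz = 0 := by simp only [val8, zz, v8]; push_cast; ring
  have x4 : val8 t (i3 256) zz = t ^ 3 := by simp only [val8, i3, zz, v8]; push_cast; ring
  have x5 : val8 t zz (i3 256) = - t ^ 3 := by simp only [val8, i3, zz, v8]; push_cast; ring
  split_ifs
  all_goals
    simp only [List.map_append, List.map_cons, List.map_nil, List.cons_append, List.nil_append,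
      Dq.pt, x1, x2, x3, x4, x5, add_i3, add_i3', List.cons.injEq, Prod.mk.injEq, and_true]
    push_cast
    repeat' apply And.intro
  all_goals ring1

theorem dsC_val (t : ℚ) (c : ℕ) (G : Lay) (hce : G.ce t c = G.N + ceV t (G.kd c)) :
    (dsC (G.kd c)).map (Dq.pt t c G.N 0) = G.cePts t c := by
  cases h : G.kd c with
  | pL σ =>
    have x1 : val8 t (i1 64) zz = t / 4 := by simp only [val8, i1, zz, v8]; push_cast; ring
    have x2 : val8 t zz (i1 64) = - (t / 4) := by simp only [val8, i1, zz, v8]; push_cast; ring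
    have x3 : val8 t zz zz = 0 := by simp only [val8, zz, v8]; push_cast; ring
    have x4 : val8 t (i4 256) zz = t ^ 4 := by simp only [val8, i4, zz, v8]; push_cast; ring
    have x5 : val8 t (i34 512 256) zz = 2 * t ^ 3 + t ^ 4 := by
      simp only [val8, i34, zz, v8]; push_cast; ring
    have x6 : val8 t zz (i7 256) = - t ^ 7 := by simp only [val8, i7, zz, v8]; push_cast; ring
    unfold Lay.cePts
    rw [h]
    cases σ
    · have x7 : val8 t (i3 (tN false)) zz = 5 / 4 * t ^ 3 := by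
        simp only [val8, i3, zz, v8, tN]; push_cast; ring
      simp only [dsC, tentPts, tipQ, eQ, eN, List.map_append, List.map_cons, List.map_nil,
        List.cons_append, List.nil_append,
        Dq.pt, x1, x2, x3, x4, x5, x6, x7, List.cons.injEq, Prod.mk.injEq, and_true]
      push_cast
      refine ⟨⟨?_, ?_⟩, ⟨?_, ?_⟩, ⟨?_, ?_⟩, ⟨?_, ?_⟩, ⟨?_, ?_⟩, ⟨?_, ?_⟩, ⟨?_, ?_⟩, ?_, ?_⟩ <;>
        norm_num <;> ring
    · have x7 : val8 t (i3 (tN true)) zz = 3 / 4 * t ^ 3 := by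
        simp only [val8, i3, zz, v8, tN]; push_cast; ring
      simp only [dsC, tentPts, tipQ, eQ, eN, List.map_append, List.map_cons, List.map_nil,
        List.cons_append, List.nil_append,
        Dq.pt, x1, x2, x3, x4, x5, x6, x7, List.cons.injEq, Prod.mk.injEq, and_true]
      push_cast
      refine ⟨⟨?_, ?_⟩, ⟨?_, ?_⟩, ⟨?_, ?_⟩, ⟨?_, ?_⟩, ⟨?_, ?_⟩, ⟨?_, ?_⟩, ⟨?_, ?_⟩, ?_, ?_⟩ <;>
        norm_num <;> ring
  | pR σ =>
    have x1 : val8 t (i1 64) zz = t / 4 := by simp only [val8, i1, zz, v8]; push_cast; ring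
    have x2 : val8 t zz (i1 64) = - (t / 4) := by simp only [val8, i1, zz, v8]; push_cast; ring
    have x3 : val8 t zz zz = 0 := by simp only [val8, zz, v8]; push_cast; ring
    have x4 : val8 t (i4 256) zz = t ^ 4 := by simp only [val8, i4, zz, v8]; push_cast; ring
    have x5 : val8 t (i34 512 256) zz = 2 * t ^ 3 + t ^ 4 := by
      simp only [val8, i34, zz, v8]; push_cast; ring
    have x6 : val8 t (i7 256) zz = t ^ 7 := by simp only [val8, i7, zz, v8]; push_cast; ring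
    unfold Lay.cePts
    rw [h]
    cases σ
    all_goals
      simp only [dsC, tentPts, tipQ, eQ, eN, List.map_append, List.map_cons, List.map_nil,
        List.cons_append, List.nil_append,
        Dq.pt, x1, x2, x3, x4, x5, x6, List.cons.injEq, Prod.mk.injEq, and_true]
      push_cast
      refine ⟨⟨?_, ?_⟩, ⟨?_, ?_⟩, ⟨?_, ?_⟩, ⟨?_, ?_⟩, ⟨?_, ?_⟩, ⟨?_, ?_⟩, ⟨?_, ?_⟩, ?_, ?_⟩ <;>
        norm_num <;> ring
  | _ =>
    have h0 := ds0_val t c G hce
    rw [h] at h0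
    unfold Lay.cePts
    rw [h]
    exact h0

/-- Module T9c. -/
theorem t9c (h4 : T4Stmt) (h6 : T6Stmt) (hL : TLStmt) : T9cStmt := by
  refine ⟨fun S c => ((dsC ((lay S).kd c)).map (pnt (lay S).T c (lay S).N zz zz)).reverse, ?_, ?_⟩
  · intro S m c hS _ hT hc
    have hT8 : 8 ≤ (lay S).T := by
      have := H69.T_ge (lay S); omega
    have ho := off_le S hS c
    have hce := (h6 S ((1 / 2) ^ m) c hS hc).2.1
    have hce' : (lay S).ce ((1 / 2) ^ m) c = (lay S).N + ceV ((1 / 2) ^ m) ((lay S).kd c) := hce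
    refine ⟨?_, ?_⟩
    · refine H69.OKs_reverse _ _ (pnt_ok m _ _ _ _ _ _ hT hT8 (fun j => zz_le j)
        (fun j => ?_) (by simp [zz, v8]) (by simp [zz, v8]) (dsC_ok _ ho))
      have := zz_le (N := 0) j
      omega
    · rw [← dsC_val _ _ _ hce']
      have h := pnt_val m (lay S).T c (lay S).N zz zz (dsC ((lay S).kd c)) hT8 (fun j => by
        have := zz_le (N := 0) j
        omega) (dsC_ok _ ho)
      have hz : val8 ((1 / 2) ^ m) zz zz = 0 := by
        simp only [val8, zz, v8]; push_cast; ring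
      rw [hz] at h
      rw [← h]
      unfold dPoly
      rw [List.map_reverse]
  · intro k m c v hm hc hv
    have hf := (h4 k v c hv hc).2.2.1
    refine (hL k m hm).2.2.2.1 Kind (fun ρ => (lay (sysOfWord (v ρ))).kd (c ρ))
      (fun a ρ => ((dsC a).map (pnt (lay (sysOfWord (v ρ))).T (c ρ)
        (lay (sysOfWord (v ρ))).N zz zz)).reverse) hf (fun a => ?_)
    have h := wg_pnt hL (P := fun _ => zz) (Q := fun _ => zz) hm (H69.ng_T1 h4 hv) hc
      (H69.ng_N1 h4 hv) (fun j => NG.const _) (fun j => NG.const _) (dsC a).reverse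
    simpa only [List.map_reverse] using h

end Pool.Agent.Helper2_Pak.H98
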