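import Pool.Agent.Helper2_Pak.StmtsT
import Pool.Agent.Helper2_Pak.U0
import Pool.Agent.Helper69_Pak.T9w

/-!
# Points given by digits (for T8 and T9c)
-/

namespace Pool.Agent.Helper2_Pak.H98

open Pool.Agent.Helper2_Pack Pool.Agent.Helper53_CookLevin Pool.Agent.Helper53_Chan
open Pool.Agent.Helper91_Pack (NG FG SG)
open Pool.Agent.Helper91_Pack

/-- the digits of a number: corrections `p`, `- q` in units of `1 / 256` -/
def G9 (T b : ℕ) (p q : ℕ → ℕ) (j : ℕ) : ℕ :=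
  if j = 0 then 512 + b else if j = 8 then 256 * T + 1 + p 8 - q 8 else 256 * T + p j - q j

/-- eight digits -/
def v8 (a1 a2 a3 a4 a5 a6 a7 a8 : ℕ) : ℕ → ℕ
  | 1 => a1 | 2 => a2 | 3 => a3 | 4 => a4 | 5 => a5 | 6 => a6 | 7 => a7 | 8 => a8 | _ => 0

/-- the value of the corrections -/
def val8 (t : ℚ) (p q : ℕ → ℕ) : ℚ :=
  (((p 1 : ℚ) - q 1) * t + ((p 2 : ℚ) - q 2) * t ^ 2 + ((p 3 : ℚ) - q 3) * t ^ 3 +
    ((p 4 : ℚ) - q 4) * t ^ 4 + ((p 5 : ℚ) - q 5) * t ^ 5 + ((p 6 : ℚ) - q 6) * t ^ 6 +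
    ((p 7 : ℚ) - q 7) * t ^ 7 + ((p 8 : ℚ) - q 8) * t ^ 8) / 256

theorem G9_val (m T b : ℕ) (p q : ℕ → ℕ) (hq : ∀ j, q j ≤ 256 * T + p j) :
    digVal m (G9 T b p q) = (b : ℚ) / 256 + val8 ((1 / 2) ^ m) p q + shift T ((1 / 2) ^ m) := by
  unfold digVal shift val8
  generalize ((1 : ℚ) / 2) ^ m = t
  have h8 : q 8 ≤ 256 * T + 1 + p 8 := (hq 8).trans (by omega)
  simp only [Finset.sum_range_succ, Finset.sum_range_zero, G9]
  norm_num
  rw [Nat.cast_sub (hq 1), Nat.cast_sub (hq 2), Nat.cast_sub (hq 3), Nat.cast_sub (hq 4),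
    Nat.cast_sub (hq 5), Nat.cast_sub (hq 6), Nat.cast_sub (hq 7), Nat.cast_sub h8]
  push_cast
  ring

theorem G9_ok (m T b : ℕ) (p q : ℕ → ℕ) (hT : 2 ^ 11 * T < 2 ^ m) (hT8 : 8 ≤ T)
    (hp : ∀ j, p j ≤ 256 * T + 4096) (hq : ∀ j, q j ≤ 256 * T) (hp8 : p 8 % 2 = 0)
    (hq8 : q 8 % 2 = 0) : DigOK m (G9 T b p q) := by
  refine ⟨by simp [G9], ?_, fun j h1 h8 => ?_⟩
  · simp only [G9]
    have := hq 8
    norm_num
    omega
  · have h0 : j ≠ 0 := by omega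
    have a := hp j
    by_cases h : j = 8
    · subst h
      simp only [G9]
      norm_num
      omega
    · simp only [G9, h0, h, if_false]
      omega

theorem G9_ng {k : ℕ} {T b : (Fin k → List CL) → ℕ} {p q : (Fin k → List CL) → ℕ → ℕ}
    (hT : NG k T) (hb : NG k b) (hp : ∀ j, NG k (fun ρ => p ρ j)) (hq : ∀ j, NG k (fun ρ => q ρ j))
    (j : ℕ) : NG k (fun ρ => G9 (T ρ) (b ρ) (p ρ) (q ρ) j) := by
  by_cases h0 : j = 0
  · subst h0
    exact NG.congr (NG.add (NG.const 512) hb) (fun ρ => rfl)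
  by_cases h8 : j = 8
  · subst h8
    exact NG.congr (NG.sub (NG.add (NG.add (NG.mul (NG.const 256) hT) (NG.const 1)) (hp 8)) (hq 8))
      (fun ρ => rfl)
  · refine NG.congr (NG.sub (NG.add (NG.mul (NG.const 256) hT) (hp j)) (hq j)) (fun ρ => ?_)
    simp only [G9, h0, h8, if_false]

/-- a corner: constant corrections of its coordinates -/
structure Dq where
  xb : ℕ
  xp : ℕ → ℕ
  xq : ℕ → ℕ
  yb : ℕ
  yp : ℕ → ℕ
  yq : ℕ → ℕ

/-- the digits of the corner -/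
def pnt (T c B : ℕ) (P Q : ℕ → ℕ) (d : Dq) : DP :=
  (G9 T (256 * c + d.xb) d.xp d.xq,
    G9 T (256 * B + d.yb) (fun j => P j + d.yp j) (fun j => Q j + d.yq j))

/-- the corner -/
def Dq.pt (t c B : ℚ) (F : ℚ) (d : Dq) : ℚ × ℚ :=
  (c + (d.xb / 256 + val8 t d.xp d.xq), B + F + (d.yb / 256 + val8 t d.yp d.yq))

/-- the constants are small -/
def Dq.OK (d : Dq) : Prop :=
  (∀ j, d.xp j ≤ 2048 ∧ d.xq j ≤ 2048 ∧ d.yp j ≤ 2048 ∧ d.yq j ≤ 2048) ∧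
    d.xp 8 % 2 = 0 ∧ d.xq 8 % 2 = 0 ∧ d.yp 8 % 2 = 0 ∧ d.yq 8 % 2 = 0

theorem val8_add (t : ℚ) (P Q p q : ℕ → ℕ) : val8 t (fun j => P j + p j) (fun j => Q j + q j) =
    val8 t P Q + val8 t p q := by
  unfold val8
  push_cast
  ring

theorem pnt_val (m T c B : ℕ) (P Q : ℕ → ℕ) (ds : List Dq) (hT8 : 8 ≤ T)
    (hQ : ∀ j, Q j + 2048 ≤ 256 * T) (hd : ∀ d ∈ ds, d.OK) :
    dPoly m (ds.map (pnt T c B P Q)) = translate (shift T ((1 / 2) ^ m))
      (ds.map (Dq.pt ((1 / 2) ^ m) c B (val8 ((1 / 2) ^ m) P Q))) := by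
  unfold dPoly translate
  rw [List.map_map, List.map_map]
  refine List.map_congr_left fun d h => ?_
  have ho := (hd d h).1
  show (digVal m (G9 T (256 * c + d.xb) d.xp d.xq), digVal m (G9 T (256 * B + d.yb) _ _)) = _
  rw [G9_val m T (256 * c + d.xb) d.xp d.xq (fun j => by have := ho j; omega),
    G9_val m T (256 * B + d.yb) _ _ (fun j => by have := ho j; have := hQ j; omega), val8_add]
  unfold Dq.pt
  push_cast
  ext
  · show _ = _ + _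
    ring
  · show _ = _ + _
    ring

theorem pnt_ok (m T c B : ℕ) (P Q : ℕ → ℕ) (ds : List Dq) (hT : 2 ^ 11 * T < 2 ^ m)
    (hT8 : 8 ≤ T) (hP : ∀ j, P j ≤ 256 * T) (hQ : ∀ j, Q j + 2048 ≤ 256 * T) (hP8 : P 8 % 2 = 0)
    (hQ8 : Q 8 % 2 = 0)
    (hd : ∀ d ∈ ds, d.OK) : OKs m (ds.map (pnt T c B P Q)) := by
  intro e he
  obtain ⟨d, hd1, rfl⟩ := List.mem_map.1 he
  obtain ⟨h1, h2, h3, h4, h5⟩ := hd d hd1
  refine ⟨G9_ok m T _ _ _ hT hT8 (fun j => ?_) (fun j => ?_) h2 h3,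
    G9_ok m T _ _ _ hT hT8 (fun j => ?_) (fun j => ?_) ?_ ?_⟩
  · have := h1 j; omega
  · have := h1 j; omega
  · have := h1 j; have := hP j; omega
  · have := h1 j; have := hQ j; omega
  · omega
  · omega

theorem wg_pnt (hL : TLStmt) {k : ℕ} {m T c B : (Fin k → List CL) → ℕ}
    {P Q : (Fin k → List CL) → ℕ → ℕ} (hm : NG k m) (hT : NG k T) (hc : NG k c) (hB : NG k B)
    (hP : ∀ j, NG k (fun ρ => P ρ j)) (hQ : ∀ j, NG k (fun ρ => Q ρ j)) (ds : List Dq) :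
    WG k m (fun ρ => ds.map (pnt (T ρ) (c ρ) (B ρ) (P ρ) (Q ρ))) := by
  have h := (hL k m hm).1 (ds.map fun d => fun ρ => pnt (T ρ) (c ρ) (B ρ) (P ρ) (Q ρ) d) ?_
  · simp only [List.map_map, Function.comp_def] at h
    exact h
  · intro p hp j _
    obtain ⟨d, -, rfl⟩ := List.mem_map.1 hp
    constructor
    · exact G9_ng (p := fun _ => d.xp) (q := fun _ => d.xq) hT
        (NG.add (NG.mul (NG.const 256) hc) (NG.const d.xb)) (fun j => NG.const _)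
        (fun j => NG.const _) j
    · exact G9_ng (p := fun ρ j => P ρ j + d.yp j) (q := fun ρ j => Q ρ j + d.yq j) hT
        (NG.add (NG.mul (NG.const 256) hB) (NG.const d.yb))
        (fun j => NG.add (hP j) (NG.const _)) (fun j => NG.add (hQ j) (NG.const _)) j

theorem v8_le {N a1 a2 a3 a4 a5 a6 a7 a8 : ℕ} (h1 : a1 ≤ N) (h2 : a2 ≤ N) (h3 : a3 ≤ N)
    (h4 : a4 ≤ N) (h5 : a5 ≤ N) (h6 : a6 ≤ N) (h7 : a7 ≤ N) (h8 : a8 ≤ N) (j : ℕ) :
    v8 a1 a2 a3 a4 a5 a6 a7 a8 j ≤ N := by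
  unfold v8
  split <;> first | assumption | exact Nat.zero_le _

theorem v8_ng {k : ℕ} {a1 a2 a3 a4 a5 a6 a7 a8 : (Fin k → List CL) → ℕ} (h1 : NG k a1)
    (h2 : NG k a2) (h3 : NG k a3) (h4 : NG k a4) (h5 : NG k a5) (h6 : NG k a6) (h7 : NG k a7)
    (h8 : NG k a8) (j : ℕ) :
    NG k (fun ρ => v8 (a1 ρ) (a2 ρ) (a3 ρ) (a4 ρ) (a5 ρ) (a6 ρ) (a7 ρ) (a8 ρ) j) := by
  unfold v8
  match j with
  | 0 => exact NG.const 0
  | 1 => exact h1
  | 2 => exact h2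
  | 3 => exact h3
  | 4 => exact h4
  | 5 => exact h5
  | 6 => exact h6
  | 7 => exact h7
  | 8 => exact h8
  | (j + 9) => exact NG.const 0

/-- zero -/
def zz : ℕ → ℕ := v8 0 0 0 0 0 0 0 0
/-- correction of the first digit -/
def i1 (a : ℕ) : ℕ → ℕ := v8 a 0 0 0 0 0 0 0
/-- correction of the third digit -/
def i3 (a : ℕ) : ℕ → ℕ := v8 0 0 a 0 0 0 0 0
/-- correction of the seventh digit -/
def i7 (a : ℕ) : ℕ → ℕ := v8 0 0 0 0 0 0 a 0

theorem i1_le {a : ℕ} (ha : a ≤ 2048) (j : ℕ) : i1 a j ≤ 2048 := by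
  apply v8_le <;> omega
theorem i3_le {a : ℕ} (ha : a ≤ 2048) (j : ℕ) : i3 a j ≤ 2048 := by
  apply v8_le <;> omega
theorem i7_le {a : ℕ} (ha : a ≤ 2048) (j : ℕ) : i7 a j ≤ 2048 := by
  apply v8_le <;> omega
theorem zz_le {N : ℕ} (j : ℕ) : zz j ≤ N := by
  apply v8_le <;> omega

/-! ### Bounds -/

theorem l_le (S : SInst) (hS : S.WF) (c : ℕ) : (lay S).l c ≤ (lay S).n := by
  obtain ⟨h1, h2, -⟩ := H2.u0 S hS
  show ((blk S (c / 7)).col (nR S) (c % 7)).2 ≤ nR S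
  cases h : blk S (c / 7) with
  | blank => exact Nat.zero_le _
  | sum right a a' a'' o =>
    obtain ⟨q1, q2, q3, -⟩ := h1 _ _ _ _ _ _ h
    cases right <;> unfold Blk.col <;> dsimp only <;> split <;> dsimp only <;> omega
  | inv i j =>
    obtain ⟨q1, q2, -⟩ := h2 _ _ _ h
    have : nR S = 2 * S.n + 1 := rfl
    unfold Blk.col; dsimp only; split <;> dsimp only <;> omega

theorem off_le (S : SInst) (hS : S.WF) (c : ℕ) : -1 ≤ ((lay S).kd c).off ∧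
    ((lay S).kd c).off ≤ 1 := by
  obtain ⟨h1, -⟩ := H2.u0 S hS
  show -1 ≤ ((blk S (c / 7)).col (nR S) (c % 7)).1.off ∧ ((blk S (c / 7)).col (nR S) (c % 7)).1.off ≤ 1
  cases h : blk S (c / 7) with
  | blank => simp [Blk.col, Kind.off]
  | sum right a a' a'' o =>
    obtain ⟨-, -, -, q4, q5, -⟩ := h1 _ _ _ _ _ _ h
    cases right <;> unfold Blk.col <;> dsimp only <;> split <;> simp [Kind.off, q4, q5]
  | inv i j =>
    unfold Blk.col; dsimp only; split <;> simp [Kind.off]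

end Pool.Agent.Helper2_Pak.H98
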